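import Pool.Agent.Work.MP_943409_an_helper39.Mul
import Pool.Agent.Work.MP_943409_an_helper39.HS2

/-!
Hilbert-Schmidt bound for the Sylvester equation.
-/

open Complex MeasureTheory Filter Topology
open scoped ComplexOrder InnerProductSpace ComplexConjugate ENNReal

namespace Aluthge

section Resolvent

variable {H : Type} [NormedAddCommGroup H] [InnerProductSpace ℂ H] [CompleteSpace H]

/-- The resolvent of a positive operator. -/
theorem exists_resolvent {P : H →L[ℂ] H} (hP : 0 ≤ P) {c : ℝ} (hc : 0 < c) :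
    ∃ Q : H →L[ℂ] H, Q * (P + (c : ℂ) • 1) = 1 ∧ (∀ x, ‖(Q * P) x‖ ≤ ‖x‖) ∧
      ∀ x, ‖Q x‖ ≤ c⁻¹ * ‖x‖ := by
  have hpos := (ContinuousLinearMap.nonneg_iff_isPositive P).1 hP
  have hspec : (-(c : ℂ)) ∉ spectrum ℂ P := by
    intro h
    have h1 : 0 ≤ -(c : ℂ) := spectrum_nonneg_of_nonneg hP h
    have h2 : (0 : ℝ) ≤ -c := by
      have := (Complex.le_def.1 h1).1
      simpa using this
    linarith
  have hunit : IsUnit (P + (c : ℂ) • (1 : H →L[ℂ] H)) := by
    rw [spectrum.notMem_iff] at hspec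
    have h1 : (algebraMap ℂ (H →L[ℂ] H) (-(c : ℂ)) - P) = -(P + (c : ℂ) • (1 : H →L[ℂ] H)) := by
      rw [Algebra.algebraMap_eq_smul_one, neg_smul]
      abel
    rw [h1] at hspec
    exact (IsUnit.neg_iff _).1 hspec
  obtain ⟨u, hu⟩ := hunit
  have hQ1 : (↑u⁻¹ : H →L[ℂ] H) * (P + (c : ℂ) • 1) = 1 := by rw [← hu]; exact u.inv_mul
  have hQ2 : (P + (c : ℂ) • 1) * (↑u⁻¹ : H →L[ℂ] H) = 1 := by rw [← hu]; exact u.mul_inv
  have hcomm : (↑u⁻¹ : H →L[ℂ] H) * P = P * (↑u⁻¹ : H →L[ℂ] H) := by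
    have h1 : P * (P + (c : ℂ) • 1) = (P + (c : ℂ) • 1) * P := by
      rw [mul_add, add_mul, mul_smul_comm, smul_mul_assoc, mul_one, one_mul]
    calc (↑u⁻¹ : H →L[ℂ] H) * P
        = ↑u⁻¹ * (P * (P + (c : ℂ) • 1)) * ↑u⁻¹ := by
          rw [mul_assoc, mul_assoc P, hQ2, mul_one]
      _ = P * ↑u⁻¹ := by rw [h1, ← mul_assoc, hQ1, one_mul]
  -- the basic estimate
  have hbase : ∀ y : H, ‖P y‖ ^ 2 + c ^ 2 * ‖y‖ ^ 2 ≤ ‖(P + (c : ℂ) • (1 : H →L[ℂ] H)) y‖ ^ 2 := by
    intro y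
    have h1 : (P + (c : ℂ) • (1 : H →L[ℂ] H)) y = P y + (c : ℂ) • y := by simp
    rw [h1, norm_add_sq (𝕜 := ℂ)]
    have h2 : 0 ≤ RCLike.re ⟪P y, (c : ℂ) • y⟫_ℂ := by
      rw [inner_smul_right, RCLike.re_eq_complex_re, Complex.re_ofReal_mul]
      exact mul_nonneg hc.le (hpos.2 y)
    have h3 : ‖(c : ℂ) • y‖ ^ 2 = c ^ 2 * ‖y‖ ^ 2 := by
      rw [norm_smul, mul_pow]
      simp
    rw [h3]
    linarith
  refine ⟨↑u⁻¹, hQ1, fun x => ?_, fun x => ?_⟩
  · rw [hcomm]
    have h1 := hbase ((↑u⁻¹ : H →L[ℂ] H) x)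
    have h2 : (P + (c : ℂ) • (1 : H →L[ℂ] H)) ((↑u⁻¹ : H →L[ℂ] H) x) = x := by
      have := congrArg (fun T : H →L[ℂ] H => T x) hQ2
      simpa only [mul_apply_eq_comp, one_apply_eq_self] using this
    rw [h2] at h1
    rw [mul_apply_eq_comp]
    refine le_of_sq_le_sq ?_ (norm_nonneg _)
    nlinarith [sq_nonneg (c * ‖(↑u⁻¹ : H →L[ℂ] H) x‖)]
  · have h1 := hbase ((↑u⁻¹ : H →L[ℂ] H) x)
    have h2 : (P + (c : ℂ) • (1 : H →L[ℂ] H)) ((↑u⁻¹ : H →L[ℂ] H) x) = x := by
      have := congrArg (fun T : H →L[ℂ] H => T x) hQ2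
      simpa only [mul_apply_eq_comp, one_apply_eq_self] using this
    rw [h2] at h1
    have h3 : c * ‖(↑u⁻¹ : H →L[ℂ] H) x‖ ≤ ‖x‖ := by
      refine le_of_sq_le_sq ?_ (norm_nonneg _)
      rw [mul_pow]
      nlinarith [sq_nonneg ‖P ((↑u⁻¹ : H →L[ℂ] H) x)‖]
    rw [← div_eq_inv_mul, le_div_iff₀ hc]
    linarith

end Resolvent

theorem sum_add_sq_le {κ : Type} (s : Finset κ) (f g : κ → ℝ) {α β : ℝ}
    (hα : 0 ≤ α) (hβ : 0 ≤ β) (h1 : ∑ i ∈ s, f i ^ 2 ≤ α ^ 2) (h2 : ∑ i ∈ s, g i ^ 2 ≤ β ^ 2) :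
    ∑ i ∈ s, (f i + g i) ^ 2 ≤ (α + β) ^ 2 := by
  have h3 : ∑ i ∈ s, f i * g i ≤ α * β := by
    have h4 := Finset.sum_mul_sq_le_sq_mul_sq s f g
    have h5 : (∑ i ∈ s, f i * g i) ^ 2 ≤ (α * β) ^ 2 := by
      refine h4.trans ?_
      rw [mul_pow]
      exact mul_le_mul h1 h2 (Finset.sum_nonneg fun i _ => by positivity) (by positivity)
    exact abs_le_of_sq_le_sq' h5 (mul_nonneg hα hβ) |>.2
  calc ∑ i ∈ s, (f i + g i) ^ 2
      = ∑ i ∈ s, f i ^ 2 + 2 * ∑ i ∈ s, f i * g i + ∑ i ∈ s, g i ^ 2 := by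
        rw [Finset.mul_sum, ← Finset.sum_add_distrib, ← Finset.sum_add_distrib]
        exact Finset.sum_congr rfl fun i _ => by ring
    _ ≤ (α + β) ^ 2 := by nlinarith

/-- One approximation step. -/
theorem syl_step {sx : ℝ → ℝ} {S : E →L[ℂ] E} (hS : IsMul sx S) (hsm : Measurable sx)
    (hs0 : ∀ x, 0 < sx x) (hs1 : ∀ x, sx x ≤ 1)
    {P N G₁ G₂ : E →L[ℂ] E} {α β : ℝ} (hP : 0 ≤ P) (h1 : HS G₁ α) (h2 : HS G₂ β)
    (heq : P * N + N * S = P * G₂ + G₁ * S) {δ : ℝ} (hδ : 0 < δ)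
    {D : E →L[ℂ] E} (hD : IsMul (fun x => if δ < sx x then 1 else 0) D) (n : ℕ) (hn : 0 < n) :
    ∃ K : E →L[ℂ] E, HS K (β + α) ∧
      ∀ g, ‖(N * D) g - K g‖ ≤ (δ⁻¹ * ‖N - G₁‖ * (1 / n) * Real.sqrt (n + 1)) * ‖g‖ := by
  classical
  -- the level sets
  let ind : ℕ → ℝ → ℝ := fun j x => if δ < sx x ∧ ⌊sx x * n⌋₊ = j then 1 else 0
  have hind_meas : ∀ j, Measurable (ind j) := by
    intro j
    refine Measurable.ite ?_ measurable_const measurable_const
    exact (measurableSet_lt measurable_const hsm).inter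
      ((Nat.measurable_floor.comp (hsm.mul_const _)) (measurableSet_singleton j))
  have hind_bd : ∀ j x, |ind j x| ≤ 1 := by
    intro j x
    simp only [ind]
    split_ifs <;> simp
  choose q hq using fun j => exists_isMul (hind_meas j) (hind_bd j)
  have hqs : ∀ j, star (q j) = q j := fun j => (hq j).star
  have hqq : ∀ j, q j * q j = q j := fun j => ((hq j).mul (hq j)).ext (hq j) fun x => by
    simp only [ind]
    split_ifs <;> simp
  have horth : ∀ j k, j ≠ k → q j * q k = 0 := fun j k hjk =>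
    ((hq j).mul (hq k)).ext isMul_zero fun x => by
      simp only [ind]
      split_ifs with ha hb <;> simp
      exact hjk (ha.2.symm.trans hb.2)
  have hsum : ∑ j ∈ Finset.range (n + 1), q j = D := by
    refine (IsMul.sum _ hq).ext hD fun x => ?_
    simp only [ind]
    by_cases hx : δ < sx x
    · simp only [hx, true_and, if_true]
      rw [Finset.sum_ite_eq, if_pos]
      rw [Finset.mem_range, Nat.lt_succ_iff]
      have h3 : sx x * n ≤ n := by
        have := hs1 x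
        nlinarith [(Nat.cast_nonneg n : (0 : ℝ) ≤ n)]
      calc ⌊sx x * n⌋₊ ≤ ⌊(n : ℝ)⌋₊ := Nat.floor_le_floor h3
        _ = n := Nat.floor_natCast n
    · simp [hx]
  -- the values
  let c : ℕ → ℝ := fun j => max δ (j / n)
  have hc : ∀ j, 0 < c j := fun j => lt_of_lt_of_le hδ (le_max_left _ _)
  have hcδ : ∀ j, δ ≤ c j := fun j => le_max_left _ _
  have hclose : ∀ j x, |(c j - sx x) * ind j x| ≤ 1 / n * ind j x := by
    intro j x
    simp only [ind]
    split_ifs with hx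
    · have hn' : (0 : ℝ) < n := by exact_mod_cast hn
      rw [mul_one, mul_one]
      have h3 : (j : ℝ) ≤ sx x * n := by
        rw [← hx.2]
        exact Nat.floor_le (by have := hs0 x; positivity)
      have h4 : sx x * n < j + 1 := by
        rw [← hx.2]
        exact Nat.lt_floor_add_one _
      have h5 : (j : ℝ) / n ≤ sx x := by rw [div_le_iff₀ hn']; exact h3
      have h6 : sx x < (j : ℝ) / n + 1 / n := by
        rw [← add_div, lt_div_iff₀ hn']; exact h4
      have h7 : c j ≤ sx x := max_le hx.1.le h5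
      have h8 : (j : ℝ) / n ≤ c j := le_max_right _ _
      rw [abs_le]
      constructor
      · linarith
      · have : (0 : ℝ) ≤ 1 / n := by positivity
        linarith
    · simp
  -- the resolvents
  choose Q hQ using fun j => exists_resolvent hP (hc j)
  -- the error multiplications
  let m : ℕ → E →L[ℂ] E := fun j => (c j : ℂ) • q j - S * q j
  have hm : ∀ j, IsMul (fun x => (c j - sx x) * ind j x) (m j) := fun j =>
    (((hq j).smul (c j)).sub (hS.mul (hq j))).congr fun x => by ring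
  have hm_norm : ∀ j g, ‖m j g‖ ≤ 1 / n * ‖q j g‖ := by
    intro j g
    apply Lp.norm_le_mul_norm_of_ae_le_mul
    filter_upwards [hm j g, hq j g] with x hx hx'
    rw [hx, hx', norm_mul, norm_mul, ← mul_assoc]
    refine mul_le_mul_of_nonneg_right ?_ (norm_nonneg _)
    rw [Complex.norm_real, Complex.norm_real, Real.norm_eq_abs, Real.norm_eq_abs]
    have h3 : |ind j x| = ind j x := abs_of_nonneg (by simp only [ind]; split_ifs <;> simp)
    rw [h3]
    exact hclose j x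
  -- the block identity
  have hblock : ∀ j, N * q j = Q j * P * G₂ * q j + (c j : ℂ) • (Q j * (G₁ * q j))
      + Q j * ((N - G₁) * m j) := by
    intro j
    have hcomm : S * q j = q j * S := hS.comm (hq j)
    have e1 : (P + (c j : ℂ) • 1) * (N * q j)
        = P * G₂ * q j + (c j : ℂ) • (G₁ * q j) + (N - G₁) * m j := by
      have e2 : P * N * q j + N * S * q j = P * G₂ * q j + G₁ * S * q j := by
        rw [← add_mul, heq, add_mul]
      have e3 : N * S * q j = (c j : ℂ) • (N * q j) - N * m j := by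
        simp only [m, mul_sub, mul_smul_comm, mul_assoc]
        abel
      have e4 : G₁ * S * q j = (c j : ℂ) • (G₁ * q j) - G₁ * m j := by
        simp only [m, mul_sub, mul_smul_comm, mul_assoc]
        abel
      rw [e3, e4] at e2
      rw [add_mul, smul_mul_assoc, one_mul, ← mul_assoc, sub_mul]
      have e5 : P * N * q j + (c j : ℂ) • (N * q j)
          = (P * N * q j + ((c j : ℂ) • (N * q j) - N * m j)) + N * m j := by abel
      rw [e5, e2]
      abel
    calc N * q j = Q j * ((P + (c j : ℂ) • 1) * (N * q j)) := by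
          rw [← mul_assoc, (hQ j).1, one_mul]
      _ = _ := by
          rw [e1, mul_add, mul_add, mul_smul_comm, mul_assoc (Q j) P G₂, mul_assoc (Q j) (P * G₂)]
  -- the main part
  let A : ℕ → E →L[ℂ] E := fun j => Q j * P * G₂ + (c j : ℂ) • (Q j * G₁)
  let K : E →L[ℂ] E := ∑ j ∈ Finset.range (n + 1), A j * q j
  have hKq : ∀ j ∈ Finset.range (n + 1), K * q j = A j * q j := by
    intro j hj
    simp only [K]
    rw [Finset.sum_mul, Finset.sum_eq_single j]
    · rw [mul_assoc, hqq]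
    · intro k _ hkj
      rw [mul_assoc, horth k j hkj, mul_zero]
    · intro h; exact absurd hj h
  have hKD : K * D = K := by
    rw [← hsum, Finset.mul_sum]
    exact Finset.sum_congr rfl fun j hj => hKq j hj
  obtain ⟨w, b, -⟩ := exists_hilbertBasis ℂ E
  have hDnorm : ∀ g, ‖D g‖ ≤ ‖g‖ := by
    intro g
    have := hD.norm_apply_le (C := 1) (fun x => by split_ifs <;> simp) g
    simpa using this
  have hbound : ∀ (G : E →L[ℂ] E) (γ : ℝ), HS G γ →
      ∑ j ∈ Finset.range (n + 1), hs2 b (G * q j) ≤ ENNReal.ofReal (γ ^ 2) := by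
    intro G γ hG
    rw [← hs2_mul_sum b _ q hqs hqq horth, hsum]
    have h3 : hs2 b (G * D) ≤ hs2 b G := by
      rw [← hs2_star b, ← hs2_star b G, star_mul, hD.star]
      unfold hs2
      refine ENNReal.tsum_le_tsum fun i => ENNReal.ofReal_le_ofReal ?_
      exact pow_le_pow_left₀ (norm_nonneg _) (hDnorm _) 2
    exact h3.trans (hs2_le_of_HS b hG)
  have hfin : ∀ (G : E →L[ℂ] E) (γ : ℝ), HS G γ → ∀ j ∈ Finset.range (n + 1),
      hs2 b (G * q j) ≠ ∞ := by
    intro G γ hG j hj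
    refine ne_top_of_le_ne_top ENNReal.ofReal_ne_top (le_trans ?_ (hbound G γ hG))
    exact Finset.single_le_sum (f := fun j => hs2 b (G * q j)) (fun i _ => zero_le) hj
  -- real Hilbert-Schmidt norms of the blocks
  let f : (E →L[ℂ] E) → ℕ → ℝ := fun G j => Real.sqrt (hs2 b (G * q j)).toReal
  have hf : ∀ (G : E →L[ℂ] E) (γ : ℝ), HS G γ → ∀ j ∈ Finset.range (n + 1),
      HS (G * q j) (f G j) := by
    intro G γ hG j hj
    refine HS_of_hs2_le b (Real.sqrt_nonneg _) ?_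
    simp only [f]
    rw [Real.sq_sqrt ENNReal.toReal_nonneg, ENNReal.ofReal_toReal (hfin G γ hG j hj)]
  have hfsum : ∀ (G : E →L[ℂ] E) (γ : ℝ), HS G γ →
      ∑ j ∈ Finset.range (n + 1), f G j ^ 2 ≤ γ ^ 2 := by
    intro G γ hG
    have h3 := hbound G γ hG
    have h4 : ∑ j ∈ Finset.range (n + 1), hs2 b (G * q j)
        = ENNReal.ofReal (∑ j ∈ Finset.range (n + 1), f G j ^ 2) := by
      rw [ENNReal.ofReal_sum_of_nonneg fun i _ => by positivity]
      refine Finset.sum_congr rfl fun j hj => ?_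
      simp only [f]
      rw [Real.sq_sqrt ENNReal.toReal_nonneg, ENNReal.ofReal_toReal (hfin G γ hG j hj)]
    rw [h4] at h3
    exact (ENNReal.ofReal_le_ofReal_iff (by positivity)).1 h3
  have hKHS : HS K (β + α) := by
    refine HS_of_hs2_le b (add_nonneg h2.1 h1.1) ?_
    rw [← hKD, ← hsum, hs2_mul_sum b _ q hqs hqq horth]
    have h3 : ∀ j ∈ Finset.range (n + 1),
        hs2 b (K * q j) ≤ ENNReal.ofReal ((f G₂ j + f G₁ j) ^ 2) := by
      intro j hj
      rw [hKq j hj]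
      apply hs2_le_of_HS
      have h4 : A j * q j = (Q j * P) * (G₂ * q j) + ((c j : ℂ) • Q j) * (G₁ * q j) := by
        simp only [A]
        rw [add_mul, smul_mul_assoc, smul_mul_assoc, mul_assoc (Q j) G₁, mul_assoc (Q j * P)]
      rw [h4]
      refine HS_add' (HS_mul_left' (hf G₂ β h2 j hj) (hQ j).2.1)
        (HS_mul_left' (hf G₁ α h1 j hj) fun x => ?_)
      rw [smul_apply, norm_smul, Complex.norm_real, Real.norm_eq_abs,
        abs_of_pos (hc j)]
      have h5 := (hQ j).2.2 x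
      calc c j * ‖Q j x‖ ≤ c j * ((c j)⁻¹ * ‖x‖) := by gcongr
        _ = ‖x‖ := by rw [← mul_assoc, mul_inv_cancel₀ (hc j).ne', one_mul]
    refine (Finset.sum_le_sum h3).trans ?_
    rw [← ENNReal.ofReal_sum_of_nonneg fun i _ => by positivity]
    exact ENNReal.ofReal_le_ofReal
      (sum_add_sq_le _ _ _ h2.1 h1.1 (hfsum G₂ β h2) (hfsum G₁ α h1))
  refine ⟨K, hKHS, fun g => ?_⟩
  -- the error
  have herr : N * D - K = ∑ j ∈ Finset.range (n + 1), Q j * ((N - G₁) * m j) := by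
    simp only [K]
    rw [← hsum, Finset.mul_sum, ← Finset.sum_sub_distrib]
    refine Finset.sum_congr rfl fun j _ => ?_
    rw [hblock j]
    simp only [A]
    rw [add_mul, smul_mul_assoc, mul_assoc (Q j) G₁]
    abel
  have h3 : (N * D) g - K g = ∑ j ∈ Finset.range (n + 1), (Q j * ((N - G₁) * m j)) g := by
    rw [← sub_apply, herr, sum_apply]
  rw [h3]
  have h4 : ∀ j ∈ Finset.range (n + 1), ‖(Q j * ((N - G₁) * m j)) g‖
      ≤ δ⁻¹ * ‖N - G₁‖ * (1 / n) * ‖q j g‖ := by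
    intro j _
    rw [mul_apply_eq_comp, mul_apply_eq_comp]
    calc ‖Q j ((N - G₁) (m j g))‖ ≤ (c j)⁻¹ * ‖(N - G₁) (m j g)‖ := (hQ j).2.2 _
      _ ≤ δ⁻¹ * (‖N - G₁‖ * (1 / n * ‖q j g‖)) := by
          gcongr
          · exact hcδ j
          · exact ((N - G₁).le_opNorm _).trans (by gcongr; exact hm_norm j g)
      _ = _ := by ring
  have h5 : (∑ j ∈ Finset.range (n + 1), ‖q j g‖) ≤ Real.sqrt (n + 1) * ‖g‖ := by
    have h6 : (∑ j ∈ Finset.range (n + 1), ‖q j g‖) ^ 2 ≤ (Real.sqrt (n + 1) * ‖g‖) ^ 2 := by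
      have h7 := sq_sum_le_card_mul_sum_sq (s := Finset.range (n + 1)) (f := fun j => ‖q j g‖)
      rw [← norm_sum_sq _ q hqs hqq horth, hsum, Finset.card_range] at h7
      rw [mul_pow, Real.sq_sqrt (by positivity)]
      push_cast at h7
      refine h7.trans ?_
      have := hDnorm g
      gcongr
    exact le_of_sq_le_sq h6 (by positivity)
  calc ‖∑ j ∈ Finset.range (n + 1), (Q j * ((N - G₁) * m j)) g‖
      ≤ ∑ j ∈ Finset.range (n + 1), ‖(Q j * ((N - G₁) * m j)) g‖ := norm_sum_le _ _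
    _ ≤ ∑ j ∈ Finset.range (n + 1), δ⁻¹ * ‖N - G₁‖ * (1 / n) * ‖q j g‖ := Finset.sum_le_sum h4
    _ = δ⁻¹ * ‖N - G₁‖ * (1 / n) * ∑ j ∈ Finset.range (n + 1), ‖q j g‖ := by
        rw [Finset.mul_sum]
    _ ≤ δ⁻¹ * ‖N - G₁‖ * (1 / n) * (Real.sqrt (n + 1) * ‖g‖) := by gcongr
    _ = _ := by ring

theorem isMul_sOp' {ε : ℝ} (hε : 0 ≤ ε) : IsMul (fun x => Real.exp (-(ε * Real.exp x))) (sOp ε) := by
  have h : ∃ M : E →L[ℂ] E, IsMul (fun x => Real.exp (-(ε * Real.exp x))) M := by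
    refine exists_isMul (C := 1) (by fun_prop) fun x => ?_
    rw [abs_of_pos (Real.exp_pos _), Real.exp_le_one_iff]
    have := Real.exp_pos x
    nlinarith [mul_nonneg hε this.le]
  exact Classical.epsilon_spec h

theorem stmt_SYL : Stmt_SYL := by
  intro ε P N G₁ G₂ α β hε hP _ h1 h2 heq
  set sx : ℝ → ℝ := fun x => Real.exp (-(ε * Real.exp x)) with hsx
  have hS : IsMul sx (sOp ε) := isMul_sOp' hε.le
  have hsm : Measurable sx := by rw [hsx]; fun_prop
  have hs0 : ∀ x, 0 < sx x := fun x => Real.exp_pos _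
  have hs1 : ∀ x, sx x ≤ 1 := fun x => by
    rw [hsx, Real.exp_le_one_iff]
    have := Real.exp_pos x
    nlinarith [mul_pos hε this]
  have hD : ∀ k : ℕ, ∃ D : E →L[ℂ] E,
      IsMul (fun x => if (1 / ((k : ℝ) + 1)) < sx x then 1 else 0) D := by
    intro k
    refine exists_isMul (C := 1) ?_ fun x => by split_ifs <;> simp
    exact Measurable.ite (measurableSet_lt measurable_const hsm) measurable_const measurable_const
  choose D hD using hD
  have hk : ∀ k : ℕ, HS (N * D k) (β + α) := by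
    intro k
    have hδ : (0 : ℝ) < 1 / ((k : ℝ) + 1) := by positivity
    have hstep := fun n : ℕ => syl_step hS hsm hs0 hs1 hP h1 h2 heq hδ (hD k) (n + 1)
      (Nat.succ_pos n)
    choose K hK using hstep
    refine HS_of_tendsto (fun n => (hK n).1) fun g => ?_
    rw [tendsto_iff_norm_sub_tendsto_zero]
    have hlim : Tendsto (fun n : ℕ => ((1 / ((k : ℝ) + 1))⁻¹ * ‖N - G₁‖ * (1 / ((n + 1 : ℕ) : ℝ))
        * Real.sqrt (((n + 1 : ℕ) : ℝ) + 1)) * ‖g‖) atTop (𝓝 0) := by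
      have h3 : Tendsto (fun n : ℕ => (1 / ((n + 1 : ℕ) : ℝ)) * Real.sqrt (((n + 1 : ℕ) : ℝ) + 1))
          atTop (𝓝 0) := by
        have h4 : Tendsto (fun n : ℕ => Real.sqrt 2 / Real.sqrt ((n + 1 : ℕ) : ℝ)) atTop (𝓝 0) := by
          apply Tendsto.div_atTop tendsto_const_nhds
          exact Real.tendsto_sqrt_atTop.comp
            (tendsto_natCast_atTop_atTop.comp (tendsto_add_atTop_nat 1))
        refine squeeze_zero (fun n => by positivity) (fun n => ?_) h4
        have hn : (0 : ℝ) < ((n + 1 : ℕ) : ℝ) := by positivity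
        have hn1 : (1 : ℝ) ≤ ((n + 1 : ℕ) : ℝ) := by
          push_cast
          have : (0 : ℝ) ≤ n := Nat.cast_nonneg n
          linarith
        rw [le_div_iff₀ (Real.sqrt_pos.2 hn), mul_assoc, ← Real.sqrt_mul (by positivity),
          one_div, inv_mul_le_iff₀ hn]
        have h5 : ((n + 1 : ℕ) : ℝ) * Real.sqrt 2
            = Real.sqrt ((((n + 1 : ℕ) : ℝ)) ^ 2 * 2) := by
          rw [Real.sqrt_mul (by positivity), Real.sqrt_sq hn.le]
        rw [h5]
        apply Real.sqrt_le_sqrt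
        nlinarith
      have h6 := (h3.const_mul ((1 / ((k : ℝ) + 1))⁻¹ * ‖N - G₁‖)).mul_const ‖g‖
      simpa only [mul_zero, zero_mul, mul_assoc] using h6
    refine squeeze_zero (fun n => norm_nonneg _) (fun n => ?_) hlim
    rw [norm_sub_rev]
    exact (hK n).2 g
  rw [add_comm]
  refine HS_of_tendsto hk fun g => ?_
  have hone : Tendsto (fun k => D k g) atTop (𝓝 ((1 : E →L[ℂ] E) g)) := by
    refine IsMul.tendsto hD isMul_one (C := 1) (fun n x => ?_) (fun x => ?_) g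
    · split_ifs <;> simp
    · have h3 : ∀ᶠ k : ℕ in atTop, (1 / ((k : ℝ) + 1)) < sx x :=
        (tendsto_one_div_add_atTop_nhds_zero_nat (𝕜 := ℝ)).eventually_lt_const (hs0 x)
      refine tendsto_const_nhds.congr' ?_
      filter_upwards [h3] with k hk
      rw [if_pos hk]
  have := (N.continuous.tendsto _).comp hone
  simpa [Function.comp_def] using this

end Aluthge
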